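import Pool.Agent.Lib_MP_a24efc.Genus

/-!
Stolz' question for smooth weighted complete intersections: if `X ⊂ ℙ(w₀,…,wₙ)` misses the
orbifold points and has vanishing first Pontryagin class, then `X` is Fano and its Witten genus
vanishes.
-/

namespace Pool.Agent.Results.MP_a24efc_gt.WeightedString

open MP_a24efc

/-- Equations of a weighted complete intersection of dimension `n - r` in the weighted projective
space `ℙ(w₀,…,wₙ)` over `ℂ`: positive weights `w_j`, positive degrees `d_i`, and polynomials `f_i`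
which are weighted homogeneous of degree `d_i`. -/
structure WeightedCI (n r : ℕ) where
  /-- the weights of the coordinates -/
  w : Fin (n + 1) → ℕ
  /-- the degrees of the equations -/
  d : Fin r → ℕ
  /-- the equations -/
  f : Fin r → MvPolynomial (Fin (n + 1)) ℂ
  w_pos : ∀ j, 0 < w j
  d_pos : ∀ i, 0 < d i
  homogeneous : ∀ i, MvPolynomial.IsWeightedHomogeneous w (f i) (d i)

variable {n r : ℕ}

/-- `ℂˣ` acts freely on the punctured affine cone `{x ≠ 0 : f_i(x) = 0 for all i}` by
`t · x = (t^(w_j) x_j)`; that is, `X` does not meet the orbifold points of the weighted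
projective space. -/
def WeightedCI.IsFree (X : WeightedCI n r) : Prop :=
  ∀ x : Fin (n + 1) → ℂ, x ≠ 0 → (∀ i, MvPolynomial.eval x (X.f i) = 0) →
    ∀ t : ℂ, t ≠ 0 → (∀ j, t ^ X.w j * x j = x j) → t = 1

/-- The Witten genus of `X` at `q`. For smooth `X` the tangent bundle is stably
`⊕ O(w_j) - ⊕ O(d_i)`, and `∫_X h^(n-r) = ∏ d_i / ∏ w_j` for the hyperplane class `h`; so the
characteristic number is `∏ d_i / ∏ w_j` times the coefficient of `x^(n-r)` in
`∏_j φ(w_j x) / ∏_i φ(d_i x)`, where `φ = wittenFactor q` is the class of a line bundle. -/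
noncomputable def WeightedCI.wittenGenus (X : WeightedCI n r) (q : ℂ) : ℂ :=
  (∏ i, (X.d i : ℂ)) / (∏ j, (X.w j : ℂ)) *
    (iteratedDeriv (n - r) (fun x : ℂ =>
      (∏ j, wittenFactor q (X.w j * x)) / ∏ i, wittenFactor q (X.d i * x)) 0 / (n - r).factorial)

/-- If the weighted complete intersection `X` (of dimension `n - r ≥ 0`) does not meet the
orbifold points and its first Pontryagin class `(∑ w_j² - ∑ d_i²) h²` vanishes, then
`∑ d_i < ∑ w_j`, so that `X` is Fano, and the Witten genus of `X` vanishes. -/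
theorem result (hr : r ≤ n) (X : WeightedCI n r) (hfree : X.IsFree)
    (hp : ∑ i, X.d i ^ 2 = ∑ j, X.w j ^ 2) :
    ∑ i, X.d i < ∑ j, X.w j ∧ ∀ q : ℂ, ‖q‖ < 1 → X.wittenGenus q = 0 := by
  have hcount := fun m hm => Count.card_dvd_le X.w X.d X.d_pos X.f X.homogeneous hfree m hm
  have hlt : ∑ i, X.d i < ∑ j, X.w j :=
    Fano.sum_lt_sum X.w X.d X.w_pos X.d_pos hcount (by simp; omega) hp
  refine ⟨hlt, fun q hq => ?_⟩
  have h := iteratedDeriv_wittenClass hq X.w X.d X.w_pos X.d_pos hcount hp hlt (n - r)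
    (by simp; omega)
  unfold WeightedCI.wittenGenus
  have h2 : (fun x : ℂ =>
      (∏ j, wittenFactor q (X.w j * x)) / ∏ i, wittenFactor q (X.d i * x)) =
      wittenClass q X.w X.d := rfl
  rw [h2, h, zero_div, mul_zero]

end Pool.Agent.Results.MP_a24efc_gt.WeightedString
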